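import Mathlib
import Pool.Agent.Helper241.LnStmt
import Pool.Agent.Helper241.LnFinal

namespace Pool.Agent.Results.MP_e7f0cc_co.MaxSeven

open Pool.Agent.Helper241.Ln

/-- The largest number of pairwise distinct lines in Euclidean three-space, any two of which are at
distance 1, is seven. -/
theorem result :
    IsGreatest {k : ℕ | ∃ l : Fin k → AffineSubspace ℝ E3, IsEquidistant l} 7 :=
  ⟨seven, fun _ ⟨l, hl⟩ => upper l hl⟩

end Pool.Agent.Results.MP_e7f0cc_co.MaxSeven
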